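import Pool.Agent.helper5.IH.Spec2
import Pool.Agent.helper74.IH.IDP
import Pool.Agent.helper47.IH.LBW

set_option autoImplicit false

namespace Pool.Agent.IH
open Finset CT SYM

/-- the labels of a word are invariant under the matching -/
theorem ADJ_inve {V : Type} [Fintype V] [DecidableEq V] {G : SimpleGraph V} {m : ℕ} {q : ℕ → V}
    {a b : V → ℕ} {e : V × Fin 4 → V × Fin 4} (hE : EW G m q) (hP : Pos m q a b)
    (he1 : ∀ i, e (outD m q a i) = inD m q a (i + 1)) (he2 : ∀ i, e (inD m q a (i + 1)) = outD m q a i)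
    (c : ZMod 2) (z : V → ZMod 2) (d : V × Fin 4) :
    LBW_lab a b (LBW_h q c z) (e d) = LBW_lab a b (LBW_h q c z) d := by
  have key : ∀ i < m, LBW_lab a b (LBW_h q c z) (inD m q a (i + 1)) = LBW_h q c z (i + 1) := by
    intro i hi
    rcases Nat.lt_or_ge (i + 1) m with h | h
    · exact LBW_labin hP _ _ h
    · have hm : i + 1 = m := by omega
      rw [hm]
      have h3 : inD m q a m = inD m q a 0 := by
        have := LBW_inper hE a 0
        rwa [zero_add] at this
      rw [h3, LBW_labin hP _ 0 hE.pos, LBW_hm hP, LBW_h0]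
  rcases LBW_dart hP d with ⟨i, hi, rfl⟩ | ⟨i, hi, rfl⟩
  · rcases Nat.eq_zero_or_pos i with h0 | h0
    · subst h0
      have hpos := hE.pos
      obtain ⟨p, hp1⟩ : ∃ p, p + 1 = m := ⟨m - 1, by omega⟩
      have h3 : inD m q a (p + 1) = inD m q a 0 := by
        have := LBW_inper hE a 0
        rw [zero_add] at this
        rw [hp1, this]
      rw [← h3, he2, key p (by omega), LBW_labout hP _ _ (by omega)]
    · have h4 : i = (i - 1) + 1 := by omega
      rw [h4, he2, key _ (by omega), LBW_labout hP _ _ (by omega)]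
  · rw [he1, key i hi, LBW_labout hP _ i hi]

theorem ADJ (hPOS : POS_stmt) (hEMB : EMB_stmt) (hTRX : TRX_stmt) (hLBW : LBW_stmt) (hIDP : IDP_stmt) :
    ADJ_stmt := by
  classical
  intro V _ _ G m q τ τ' S hG hq hτ hτ' hF hS hn z0 hz0
  have hind := (hIDP V G m q τ τ' S hG hq hτ hτ' hF hS).2 hn.ge
  obtain ⟨a, b, hp⟩ := hPOS V G m q hG hq
  obtain ⟨e, he1, he2, hact, hadj, hsur, hinj⟩ := hEMB V G m q a b hG hq hp
  obtain ⟨δ, h1, h2, h3⟩ := hTRX V G e hact hadj hsur hinj
  obtain ⟨t, ht, hc⟩ := h3 τ hτ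
  obtain ⟨t', ht', _⟩ := h3 τ' hτ'
  have ht0' := IDP_zero G m q a b e δ τ' t' hq hp he1 he2 h1 h2 hinj hF ht'
  have ht0 : ∀ v, v ∉ S → t v = 0 := by
    intro v hv
    have e1 := ht (δ.symm (v, 0))
    have e2 := ht' (δ.symm (v, 0))
    have e3 : (δ.symm (v, 0)).fst = v := by
      rw [← h1, Equiv.apply_symm_apply]
    rw [hS _ (by rw [e3]; exact hv), e2, Equiv.apply_symm_apply] at e1
    have e4 : pa (t' v) 0 = pa (t v) 0 := congrArg Prod.snd e1
    rw [ht0' v] at e4
    exact IDP_pa _ e4.symm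
  have hL := hLBW V G m q a b e t hq hp he1 he2
  rw [hL] at hc
  have hz : ∀ z : {z : V → ZMod 2 // Kz (IG m q) t z}, ∀ v, v ∉ S → z.1 v = 0 :=
    fun z v hv => (z.2 v).1 (ht0 v hv)
  have hK : Kz (IG m q) t (Pi.single z0 1) := by
    let f : {z : V → ZMod 2 // Kz (IG m q) t z} → (S → ZMod 2) := fun z v => z.1 v.1
    have hf : Function.Injective f := by
      intro z w hzw
      apply Subtype.ext
      funext v
      by_cases hv : v ∈ S
      · exact congrFun hzw ⟨v, hv⟩
      · rw [hz z v hv, hz w v hv]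
    have hcard : Nat.card (S → ZMod 2) = 2 ^ S.card := by
      rw [Nat.card_eq_fintype_card, Fintype.card_fun, ZMod.card, Fintype.card_coe]
    have h6 : Nat.card {z : V → ZMod 2 // Kz (IG m q) t z} = Nat.card (S → ZMod 2) := by
      rw [hcard]
      rw [hn, pow_succ] at hc
      omega
    have hbij : Function.Bijective f := by
      rw [Nat.bijective_iff_injective_and_card]
      exact ⟨hf, h6⟩
    obtain ⟨w, hw⟩ := hbij.2 (fun v => (Pi.single z0 1 : V → ZMod 2) v.1)
    have : w.1 = Pi.single z0 1 := by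
      funext v
      by_cases hv : v ∈ S
      · exact congrFun hw ⟨v, hv⟩
      · rw [hz w v hv, Pi.single_apply, if_neg]
        rintro rfl
        exact hv hz0
    rw [← this]
    exact w.2
  obtain ⟨z, hzdef⟩ : ∃ z : V → ZMod 2, z = Pi.single z0 1 := ⟨_, rfl⟩
  rw [← hzdef] at hK
  have hz1 : z z0 = 1 := by rw [hzdef, Pi.single_eq_same]
  have hz2 : ∀ w, w ≠ z0 → z w = 0 := fun w hw => by rw [hzdef, Pi.single_eq_of_ne hw]
  obtain ⟨φ, hφdef⟩ : ∃ φ : V × Fin 4 → ZMod 2, φ = LBW_lab a b (LBW_h q 0 z) := ⟨_, rfl⟩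
  have hφt : ∀ d, φ (tr t d) = φ d := by
    rw [hφdef]
    exact (LBW_K hp t 0 z).2 hK
  have hφe : ∀ d, φ (e d) = φ d := by
    rw [hφdef]
    exact ADJ_inve hq hp he1 he2 0 z
  have f0 : ∀ w, φ (w, 0) = LBW_h q 0 z (a w) := fun w => by rw [hφdef]; rfl
  have f1 : ∀ w, φ (w, 1) = LBW_h q 0 z (a w) + z w := fun w => by
    have h4 : φ (w, 1) = LBW_h q 0 z (a w + 1) := by rw [hφdef]; rfl
    rw [h4, LBW_hs, (hp.val w).1]
  have f2 : ∀ w, φ (w, 2) = LBW_h q 0 z (b w) + z w := fun w => by
    have h4 : φ (w, 2) = LBW_h q 0 z (b w + 1) := by rw [hφdef]; rfl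
    rw [h4, LBW_hs, (hp.val w).2]
  have f3 : ∀ w, φ (w, 3) = LBW_h q 0 z (b w) := fun w => by rw [hφdef]; rfl
  have hkey : ∀ w, LBW_h q 0 z (b w) + LBW_h q 0 z (a w) =
      z w + if (IG m q).Adj w z0 then (1 : ZMod 2) else 0 := by
    intro w
    have hk := LBW_key hp z w
    have hsum : (∑ w', @ite (ZMod 2) ((IG m q).Adj w w') (Classical.propDecidable _) (z w') 0) =
        if (IG m q).Adj w z0 then (1 : ZMod 2) else 0 := by
      rw [Finset.sum_eq_single z0]
      · by_cases hA : (IG m q).Adj w z0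
        · rw [if_pos hA, if_pos hA, hz1]
        · rw [if_neg hA, if_neg hA]
      · intro w' _ hw'
        rw [hz2 w' hw', ite_self]
      · intro h
        exact absurd (Finset.mem_univ _) h
    rw [hsum] at hk
    rw [← hk]
    unfold LBW_h
    rw [zero_add, zero_add]
  have hnc : ∀ w, (∃ d d' : G.Dart, d.fst = w ∧ d'.fst = w ∧
      decide (φ (δ d) = 1) ≠ decide (φ (δ d') = 1)) ↔ (w = z0 ∨ (IG m q).Adj w z0) := by
    intro w
    constructor
    · rintro ⟨d, d', hd, hd', hne⟩
      by_contra hcon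
      push Not at hcon
      obtain ⟨c1, c2⟩ := hcon
      have hk := hkey w
      rw [if_neg c2, hz2 w c1, add_zero] at hk
      have hall : ∀ k : Fin 4, φ (w, k) = LBW_h q 0 z (a w) := by
        have hba : LBW_h q 0 z (b w) = LBW_h q 0 z (a w) := by
          have : ∀ x y : ZMod 2, x + y = 0 → x = y := by decide
          exact this _ _ hk
        intro k
        fin_cases k
        · exact f0 w
        · refine (f1 w).trans ?_
          rw [hz2 w c1, add_zero]
        · refine (f2 w).trans ?_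
          rw [hz2 w c1, add_zero, hba]
        · exact (f3 w).trans hba
      have e1 : δ d = (w, (δ d).2) := Prod.ext ((h1 d).trans hd) rfl
      have e2 : δ d' = (w, (δ d').2) := Prod.ext ((h1 d').trans hd') rfl
      apply hne
      rw [e1, e2, hall, hall]
    · intro h
      have hfst : ∀ k : Fin 4, (δ.symm (w, k)).fst = w := by
        intro k
        rw [← h1, Equiv.apply_symm_apply]
      have hdec : ∀ x y : ZMod 2, x ≠ y → decide (x = 1) ≠ decide (y = 1) := by decide
      by_cases hw : w = z0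
      · refine ⟨δ.symm (w, 0), δ.symm (w, 1), hfst 0, hfst 1, ?_⟩
        rw [Equiv.apply_symm_apply, Equiv.apply_symm_apply]
        apply hdec
        rw [f0, f1, hw, hz1]
        have : ∀ x : ZMod 2, x ≠ x + 1 := by decide
        exact this _
      · have hA : (IG m q).Adj w z0 := h.resolve_left hw
        refine ⟨δ.symm (w, 0), δ.symm (w, 3), hfst 0, hfst 3, ?_⟩
        rw [Equiv.apply_symm_apply, Equiv.apply_symm_apply]
        apply hdec
        rw [f0, f3]
        have hk := hkey w
        rw [if_pos hA, hz2 w hw, zero_add] at hk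
        have : ∀ x y : ZMod 2, x + y = 1 → y ≠ x := by decide
        exact this _ _ hk
  refine ⟨fun d => decide (φ (δ d) = 1), ?_, ?_, ?_, ?_⟩
  · intro d
    show decide (φ (δ d.symm) = 1) = decide (φ (δ d) = 1)
    rw [h2, hφe]
  · intro d
    show decide (φ (δ (τ d)) = 1) = decide (φ (δ d) = 1)
    rw [ht, hφt]
  · intro w hw
    refine (hnc w).trans ?_
    constructor
    · rintro (h | h)
      · exact h
      · exact absurd h (hind w hw z0 hz0)
    · intro h
      exact Or.inl h
  · intro v hv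
    refine (hnc v).trans ?_
    constructor
    · rintro (h | h)
      · exact absurd (h ▸ hz0) hv
      · exact h.symm
    · intro h
      exact Or.inr h.symm

end Pool.Agent.IH
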