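import Pool.Agent.helper5.IH.Spec

set_option autoImplicit false

namespace Pool.Agent.IH
open Finset CT SYM

theorem ALR (hMU1 : MU1_stmt) : ALR_stmt := by
  classical
  intro V _ _ H t v hv
  have := Fintype.ofFinite V
  rw [hMU1 V H t v hv, Finset.odd_sum_iff_odd_card_odd, Nat.card_eq_fintype_card, Fintype.card_subtype]
  have hset : (Finset.univ.filter fun x => Odd (if H.Adj v x ∧ t x ≠ 0 then
      mu H (Function.update t x 0) else 0)) = Finset.univ.filter fun x => H.Adj v x ∧ Gx H t x := by
    ext x
    simp only [Finset.mem_filter, Finset.mem_univ, true_and]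
    constructor
    · intro h
      by_cases hx : H.Adj v x ∧ t x ≠ 0
      · rw [if_pos hx] at h
        exact ⟨hx.1, hx.2, h⟩
      · rw [if_neg hx] at h
        exact absurd h (by decide)
    · rintro ⟨h1, h2, h3⟩
      rw [if_pos ⟨h1, h2⟩]
      exact h3
  rw [hset]

end Pool.Agent.IH
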