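import Pool.Agent.helper5.IH.Spec

set_option autoImplicit false

namespace Pool.Agent.IH
open Finset CT SYM

theorem SG2 (hCMP : CMP_stmt) : SG2_stmt := by
  classical
  intro V _ _ H v x y
  have h1 : ∀ t : V → Fin 3, (mu H t : ZMod 2) =
      ∑ μ : Equiv.Perm V, if Mt H μ ∧ Cp t μ then (1 : ZMod 2) else 0 := by
    intro t
    rw [mu, Nat.card_eq_fintype_card, Fintype.card_subtype, Finset.natCast_card_filter]
  have h2 : ∀ t : V → Fin 3, (pc H x y t : ZMod 2) =
      ∑ σ : Equiv.Perm V, if Pt H x y σ ∧ Cp t σ then (1 : ZMod 2) else 0 := by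
    intro t
    rw [pc, Nat.card_eq_fintype_card, Fintype.card_subtype, Finset.natCast_card_filter]
  have h3 : ∀ t : V → Fin 3, (if t v = 0 then (mu H t : ZMod 2) * (pc H x y t : ZMod 2) else 0) =
      ∑ μ : Equiv.Perm V, ∑ σ : Equiv.Perm V,
        if Mt H μ ∧ Pt H x y σ then (if t v = 0 ∧ Cp t μ ∧ Cp t σ then (1 : ZMod 2) else 0) else 0 := by
    intro t
    rw [h1, h2, Finset.sum_mul_sum]
    by_cases ht : t v = 0
    · rw [if_pos ht]
      refine Finset.sum_congr rfl fun μ _ => Finset.sum_congr rfl fun σ _ => ?_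
      by_cases a1 : Mt H μ <;> by_cases a2 : Pt H x y σ <;> by_cases a3 : Cp t μ <;>
        by_cases a4 : Cp t σ <;> simp [a1, a2, a3, a4, ht]
    · rw [if_neg ht]
      symm
      refine Finset.sum_eq_zero fun μ _ => Finset.sum_eq_zero fun σ _ => ?_
      simp [ht]
  rw [Finset.sum_congr rfl fun t _ => h3 t, Finset.sum_comm]
  have h4 : ∀ μ σ : Equiv.Perm V,
      (∑ t : V → Fin 3, if t v = 0 ∧ Cp t μ ∧ Cp t σ then (1 : ZMod 2) else 0) =
        if μ v = v ∧ σ v = v ∧ ∀ w, w ≠ v → ¬ (μ w = w ↔ σ w = w) then 1 else 0 := by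
    intro μ σ
    rw [← Finset.natCast_card_filter, ← Fintype.card_subtype, ← Nat.card_eq_fintype_card]
    by_cases hμσ : μ v = v ∧ σ v = v
    · have h5 := hCMP V {v} μ σ (by
        intro w hw
        rw [Finset.mem_singleton] at hw
        rw [hw]
        exact hμσ)
      have h6 : Nat.card {t : V → Fin 3 // t v = 0 ∧ Cp t μ ∧ Cp t σ} =
          Nat.card {t : V → Fin 3 // (∀ w ∈ ({v} : Finset V), t w = 0) ∧ Cp t μ ∧ Cp t σ} := by
        refine Nat.card_congr (Equiv.subtypeEquivRight fun t => ?_)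
        simp
      rw [h6, h5]
      by_cases hw : ∀ w, w ≠ v → ¬ (μ w = w ↔ σ w = w)
      · rw [if_pos ⟨hμσ.1, hμσ.2, hw⟩]
        have h7 : Nat.card {w : V // w ∉ ({v} : Finset V) ∧ (μ w = w ↔ σ w = w)} = 0 := by
          rw [Nat.card_eq_fintype_card, Fintype.card_eq_zero_iff]
          refine ⟨fun w => ?_⟩
          obtain ⟨w, hw1, hw2⟩ := w
          exact hw w (by simpa using hw1) hw2
        rw [h7]
        simp
      · rw [if_neg fun h => hw h.2.2]
        push Not at hw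
        obtain ⟨w, hwv, hw⟩ := hw
        have h7 : 0 < Nat.card {w : V // w ∉ ({v} : Finset V) ∧ (μ w = w ↔ σ w = w)} := by
          rw [Nat.card_eq_fintype_card, Fintype.card_pos_iff]
          exact ⟨⟨w, by simpa using hwv, hw⟩⟩
        obtain ⟨m, hm⟩ := Nat.exists_eq_succ_of_ne_zero h7.ne'
        rw [hm, pow_succ]
        push_cast
        have : (2 : ZMod 2) = 0 := by decide
        rw [this, mul_zero]
    · rw [if_neg fun h => hμσ ⟨h.1, h.2.1⟩]
      have h7 : Nat.card {t : V → Fin 3 // t v = 0 ∧ Cp t μ ∧ Cp t σ} = 0 := by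
        rw [Nat.card_eq_fintype_card, Fintype.card_eq_zero_iff]
        refine ⟨fun t => ?_⟩
        obtain ⟨t, ht, h8, h9⟩ := t
        exact hμσ ⟨(h8 v).1 ht, (h9 v).1 ht⟩
      rw [h7]
      simp
  have h5 : ∀ μ : Equiv.Perm V, (∑ t : V → Fin 3, ∑ σ : Equiv.Perm V,
      if Mt H μ ∧ Pt H x y σ then (if t v = 0 ∧ Cp t μ ∧ Cp t σ then (1 : ZMod 2) else 0) else 0) =
      ∑ σ : Equiv.Perm V, if μ v = v ∧ σ v = v ∧ Mt H μ ∧ Pt H x y σ ∧
        ∀ w, w ≠ v → ¬ (μ w = w ↔ σ w = w) then (1 : ZMod 2) else 0 := by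
    intro μ
    rw [Finset.sum_comm]
    refine Finset.sum_congr rfl fun σ _ => ?_
    by_cases h : Mt H μ ∧ Pt H x y σ
    · simp only [if_pos h]
      rw [h4 μ σ]
      by_cases h' : μ v = v ∧ σ v = v ∧ ∀ w, w ≠ v → ¬ (μ w = w ↔ σ w = w)
      · rw [if_pos h', if_pos ⟨h'.1, h'.2.1, h.1, h.2, h'.2.2⟩]
      · rw [if_neg h', if_neg fun h'' => h' ⟨h''.1, h''.2.1, h''.2.2.2.2⟩]
    · simp only [if_neg h]
      rw [Finset.sum_const_zero, if_neg fun h'' => h ⟨h''.2.2.1, h''.2.2.2.1⟩]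
  rw [Finset.sum_congr rfl fun μ _ => h5 μ]
  rw [PP, Nat.card_eq_fintype_card, Fintype.card_subtype, Finset.natCast_card_filter,
    Fintype.sum_prod_type]

end Pool.Agent.IH
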